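import Pool.Agent.Q148.MonoUpper

set_option autoImplicit false

/-!
Dense planar point sets for which linearly many monotone paths suffice.
-/

namespace Pool.Agent.Results.MP_9c8b61_co.DenseLinear

open Q148.Mono

theorem exists_set {n : ℕ} (hn : 1 ≤ n) : ∃ A : Finset (ℝ × ℝ), A.card = n ∧
    GeneralPosition A ∧ Dense 2 A ∧ (mc A : ℝ) ≤ 2304 * n := by
  obtain ⟨N, S, hN, hS, -, hcard, h1, h2⟩ := exists_subset hn
  refine ⟨img N (K2 N) phi2 S, ?_, ?_, ?_, ?_⟩
  · rw [card_img good_phi2 (K2_gt4 hN) hS, hcard]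
  · exact generalPosition_img good_phi2 (K2_gt4 hN) hS
  · exact dense_img good_phi2 (K2_gt hN) hS (by rw [hcard]; exact h1)
  · have h3 : (mc (img N (K2 N) phi2 S) : ℝ) ≤ ((idx N).card : ℝ) := by
      exact_mod_cast mc_le (coverable_idx hS)
    have h4 := card_idx N
    have h5 : (N : ℝ) ^ 2 ≤ 4 * n := by
      have h6 : N ^ 2 ≤ 4 * n := by
        obtain ⟨m, rfl⟩ : ∃ m, N = m + 1 := ⟨N - 1, by omega⟩
        rw [Nat.add_sub_cancel] at h1
        nlinarith [sq_nonneg ((m : ℤ) - 1)]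
      exact_mod_cast h6
    linarith

/-- For every `n ≥ 1` there is a `2`-dense `n`-point set in general position that can be covered
by at most `2304 n` monotone paths. Hence it is false that for every `α > 0` the minimum of
`mc(A) / n` over the `α`-dense `n`-point sets `A` in general position tends to infinity. -/
theorem result :
    (∀ n : ℕ, 1 ≤ n → ∃ A : Finset (ℝ × ℝ), A.card = n ∧ GeneralPosition A ∧ Dense 2 A ∧
      (mc A : ℝ) ≤ 2304 * n) ∧
    ¬ (∀ α : ℝ, 0 < α → ∀ M : ℝ, ∃ n₀ : ℕ, ∀ A : Finset (ℝ × ℝ), n₀ ≤ A.card →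
      GeneralPosition A → Dense α A → M ≤ (mc A : ℝ) / A.card) := by
  refine ⟨fun n hn => exists_set hn, fun h => ?_⟩
  obtain ⟨n₀, hn₀⟩ := h 2 (by norm_num) 2305
  obtain ⟨A, h1, h2, h3, h4⟩ := exists_set (n := n₀ + 1) (by omega)
  have h5 := hn₀ A (by omega) h2 h3
  have h6 : (0 : ℝ) < A.card := by rw [h1]; positivity
  rw [le_div_iff₀ h6, h1] at h5
  have h7 : (0 : ℝ) < ((n₀ + 1 : ℕ) : ℝ) := by positivity
  linarith

end Pool.Agent.Results.MP_9c8b61_co.DenseLinear
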