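import Pool.Agent.Q148.MonoPath

set_option autoImplicit false

/-!
Dense planar point sets that need `Ω(n log n)` monotone paths.
-/

namespace Pool.Agent.Results.MP_9c8b61_co.DenseSuperlinear

open Q148.Mono Filter

theorem exists_set {n : ℕ} (hn : 1 ≤ n) : ∃ A : Finset (ℝ × ℝ), A.card = n ∧
    GeneralPosition A ∧ Dense 2 A ∧ (n : ℝ) * (Real.log n - 4) / 512 ≤ (mc A : ℝ) := by
  obtain ⟨N, S, hN, hS, hbox, hcard, h1, h2⟩ := exists_subset hn
  refine ⟨img N (KK N) (phi1 N) S, ?_, ?_, ?_, ?_⟩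
  · rw [card_img good_phi1 (KK_gt4 N) hS, hcard]
  · exact generalPosition_img good_phi1 (KK_gt4 N) hS
  · exact dense_img good_phi1 (KK_gt N) hS (by rw [hcard]; exact h1)
  · refine final_estimate hN hn h1 h2 ?_
    have h3 := lower_of_cover hN hS (coverable_mc (img N (KK N) (phi1 N) S))
    have h4 := gcd_sum_lower (N - 1)
    have h5 : ∑ e ∈ box (N - 1) ×ˢ box (N - 1), gg e.1 e.2 ≤ ∑ e ∈ S ×ˢ S, gg e.1 e.2 :=
      Finset.sum_le_sum_of_subset (Finset.product_subset_product hbox hbox)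
    have h6 : ((∑ e ∈ box (N - 1) ×ˢ box (N - 1), gg e.1 e.2 : ℕ) : ℝ) ≤
        ((2 * mc (img N (KK N) (phi1 N) S) * (4 * (N * N)) : ℕ) : ℝ) := by
      exact_mod_cast h5.trans h3
    push_cast at h6 h4 ⊢
    linarith

/-- There are `2`-dense `n`-point sets `A n` in general position, one for every `n ≥ 1`, with
`mc (A n) ≥ n (log n - 4) / 512`; in particular `mc (A n) / n → ∞`. -/
theorem result : ∃ A : ℕ → Finset (ℝ × ℝ),
    (∀ n : ℕ, 1 ≤ n → (A n).card = n ∧ GeneralPosition (A n) ∧ Dense 2 (A n) ∧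
      (n : ℝ) * (Real.log n - 4) / 512 ≤ (mc (A n) : ℝ)) ∧
    Tendsto (fun n : ℕ => (mc (A n) : ℝ) / n) atTop atTop := by
  classical
  refine ⟨fun n => if h : 1 ≤ n then (exists_set h).choose else ∅, ?_, ?_⟩
  · intro n hn
    simp only [hn, dif_pos]
    exact (exists_set hn).choose_spec
  · have h1 : Tendsto (fun n : ℕ => (Real.log n - 4) / 512) atTop atTop := by
      apply Tendsto.atTop_div_const (by norm_num)
      exact tendsto_atTop_add_const_right _ _
        (Real.tendsto_log_atTop.comp tendsto_natCast_atTop_atTop)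
    refine tendsto_atTop_mono' _ ?_ h1
    filter_upwards [eventually_ge_atTop 1] with n hn
    simp only [hn, dif_pos]
    have h2 := (exists_set hn).choose_spec.2.2.2
    have hn0 : (0 : ℝ) < n := by exact_mod_cast hn
    rw [le_div_iff₀ hn0]
    linarith

end Pool.Agent.Results.MP_9c8b61_co.DenseSuperlinear
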